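import Mathlib

set_option autoImplicit false

namespace Pool.Agent.H712R3.Chord

/-- the linear functional with coefficient vector `a` -/
def lf (a z : ℝ × ℝ) : ℝ := a.1 * z.1 + a.2 * z.2

lemma lf_sub (a z w : ℝ × ℝ) : lf a (z - w) = lf a z - lf a w := by
  simp only [lf, Prod.fst_sub, Prod.snd_sub]; ring

lemma lf_smul (a z : ℝ × ℝ) (c : ℝ) : lf a (c • z) = c * lf a z := by
  simp only [lf, Prod.smul_fst, Prod.smul_snd, smul_eq_mul]; ring

lemma lf_add_left (a b z : ℝ × ℝ) : lf (a + b) z = lf a z + lf b z := by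
  simp only [lf, Prod.fst_add, Prod.snd_add]; ring

lemma lf_smul_left (a z : ℝ × ℝ) (c : ℝ) : lf (c • a) z = c * lf a z := by
  simp only [lf, Prod.smul_fst, Prod.smul_snd, smul_eq_mul]; ring

lemma sum_Iio (m : ℕ) (g : Fin (m + 1) → ℝ) (k : Fin (m + 1)) :
    ∑ i ∈ Finset.Iio k, (g (i + 1) - g i) = g k - g 0 := by
  induction k using Fin.induction with
  | zero =>
    have h : Finset.Iio (0 : Fin (m + 1)) = ∅ := by ext x; simp
    rw [h, Finset.sum_empty, sub_self]
  | succ k ih =>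
    have h : Finset.Iio k.succ = insert k.castSucc (Finset.Iio k.castSucc) := by
      ext x
      simp only [Finset.mem_Iio, Finset.mem_insert, Fin.lt_def, Fin.ext_iff, Fin.val_succ,
        Fin.val_castSucc]
      omega
    rw [h, Finset.sum_insert (by simp), ih, Fin.coeSucc_eq_succ]
    ring

lemma closed_path_le (m : ℕ) (g : Fin (m + 1) → ℝ) (j k : Fin (m + 1)) (hjk : j ≤ k) :
    2 * |g k - g j| ≤ ∑ i, |g (i + 1) - g i| := by
  classical
  have h1 := sum_Iio m g k
  have h2 := sum_Iio m g j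
  have hsub : Finset.Iio j ⊆ Finset.Iio k := Finset.Iio_subset_Iio hjk
  have h3 : ∑ i ∈ Finset.Iio k \ Finset.Iio j, (g (i + 1) - g i) = g k - g j := by
    rw [Finset.sum_sdiff_eq_sub hsub, h1, h2]; ring
  have h0 : ∑ i, (g (i + 1) - g i) = 0 := by
    rw [Finset.sum_sub_distrib, sub_eq_zero]
    exact Equiv.sum_comp (Equiv.addRight (1 : Fin (m + 1))) g
  have h4 : ∑ i ∈ (Finset.Iio k \ Finset.Iio j)ᶜ, (g (i + 1) - g i) = -(g k - g j) := by
    have := Finset.sum_add_sum_compl (Finset.Iio k \ Finset.Iio j) (fun i => g (i + 1) - g i)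
    rw [h3, h0] at this
    linarith
  have h5 := Finset.sum_add_sum_compl (Finset.Iio k \ Finset.Iio j) (fun i => |g (i + 1) - g i|)
  have h6 := Finset.abs_sum_le_sum_abs (fun i => g (i + 1) - g i) (Finset.Iio k \ Finset.Iio j)
  have h7 := Finset.abs_sum_le_sum_abs (fun i => g (i + 1) - g i) (Finset.Iio k \ Finset.Iio j)ᶜ
  rw [h3] at h6
  rw [h4, abs_neg] at h7
  linarith

lemma closed_path (m : ℕ) (g : Fin (m + 1) → ℝ) (j k : Fin (m + 1)) :
    2 * (g j - g k) ≤ ∑ i, |g (i + 1) - g i| := by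
  rcases le_total j k with h | h
  · have := closed_path_le m g j k h
    have h2 := neg_abs_le (g k - g j)
    linarith
  · have := closed_path_le m g k j h
    have h2 := le_abs_self (g j - g k)
    linarith

/-- width of the point set `v` in direction `a` -/
noncomputable def W {m : ℕ} (v : Fin (m + 1) → ℝ × ℝ) (a : ℝ × ℝ) : ℝ :=
  Finset.univ.sup' (Finset.univ_nonempty) (fun p : Fin (m + 1) × Fin (m + 1) => lf a (v p.1 - v p.2))

variable {m : ℕ} (v : Fin (m + 1) → ℝ × ℝ)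

lemma le_W (a : ℝ × ℝ) (i j : Fin (m + 1)) : lf a (v i) - lf a (v j) ≤ W v a := by
  rw [← lf_sub]
  exact Finset.le_sup' (fun p : Fin (m + 1) × Fin (m + 1) => lf a (v p.1 - v p.2))
    (Finset.mem_univ (i, j))

lemma exists_W (a : ℝ × ℝ) : ∃ i j, W v a = lf a (v i) - lf a (v j) := by
  obtain ⟨p, -, hp⟩ := Finset.exists_mem_eq_sup' (Finset.univ_nonempty)
    (fun p : Fin (m + 1) × Fin (m + 1) => lf a (v p.1 - v p.2))
  exact ⟨p.1, p.2, by rw [← lf_sub]; exact hp⟩

lemma W_nonneg (a : ℝ × ℝ) : 0 ≤ W v a := by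
  have := le_W v a 0 0
  linarith

lemma W_smul (a : ℝ × ℝ) (c : ℝ) (hc : 0 ≤ c) : W v (c • a) = c * W v a := by
  apply le_antisymm
  · obtain ⟨i, j, h⟩ := exists_W v (c • a)
    rw [h, lf_smul_left, lf_smul_left, ← mul_sub]
    exact mul_le_mul_of_nonneg_left (le_W v a i j) hc
  · obtain ⟨i, j, h⟩ := exists_W v a
    rw [h, mul_sub, ← lf_smul_left, ← lf_smul_left]
    exact le_W v (c • a) i j

lemma W_continuous : Continuous (W v) := by
  unfold W
  apply Continuous.finset_sup'_apply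
  intro p _
  unfold lf
  fun_prop

lemma W_sum (a : ℝ × ℝ) : 2 * W v a ≤ ∑ i, |lf a (v (i + 1) - v i)| := by
  obtain ⟨i, j, h⟩ := exists_W v a
  have := closed_path m (fun i => lf a (v i)) i j
  rw [h]
  simpa only [lf_sub] using this

/-- existence of the circumscribed affinely regular hexagon -/
lemma exists_hex (hpos : ∀ a : ℝ × ℝ, a ≠ 0 → 0 < W v a) (a : ℝ × ℝ) (ha : W v a = 1) :
    ∃ c : ℝ × ℝ, W v c = 1 ∧ W v (a + c) = 1 ∧ 0 < a.1 * c.2 - a.2 * c.1 := by
  have ha0 : a ≠ 0 := by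
    rintro rfl
    have := W_smul v (0 : ℝ × ℝ) 0 le_rfl
    rw [smul_zero, zero_mul] at this
    linarith
  have hna : 0 < a.1 ^ 2 + a.2 ^ 2 := by
    rcases eq_or_ne a.1 0 with h1 | h1
    · have h2 : a.2 ≠ 0 := fun h2 => ha0 (Prod.ext h1 h2)
      positivity
    · positivity
  set u : ℝ → ℝ × ℝ := fun θ => (Real.cos θ * a.1 - Real.sin θ * a.2,
    Real.cos θ * a.2 + Real.sin θ * a.1) with hu
  have hucont : Continuous u := by rw [hu]; fun_prop
  have hu0 : ∀ θ, u θ ≠ 0 := by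
    intro θ h
    have h1 : Real.cos θ * a.1 - Real.sin θ * a.2 = 0 := congrArg Prod.fst h
    have h2 : Real.cos θ * a.2 + Real.sin θ * a.1 = 0 := congrArg Prod.snd h
    have h3 := Real.sin_sq_add_cos_sq θ
    have : a.1 ^ 2 + a.2 ^ 2 = 0 := by
      calc a.1 ^ 2 + a.2 ^ 2 = (Real.sin θ ^ 2 + Real.cos θ ^ 2) * (a.1 ^ 2 + a.2 ^ 2) := by
            rw [h3]; ring
        _ = (Real.cos θ * a.1 - Real.sin θ * a.2) ^ 2
            + (Real.cos θ * a.2 + Real.sin θ * a.1) ^ 2 := by ring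
        _ = 0 := by rw [h1, h2]; ring
    linarith
  have hWu : ∀ θ, 0 < W v (u θ) := fun θ => hpos _ (hu0 θ)
  set ψ : ℝ → ℝ × ℝ := fun θ => (W v (u θ))⁻¹ • u θ with hψ
  have hψc : Continuous ψ := by
    rw [hψ]
    exact (((W_continuous v).comp hucont).inv₀ (fun θ => (hWu θ).ne')).smul hucont
  set f : ℝ → ℝ := fun θ => W v (a + ψ θ) with hf
  have hfc : Continuous f := (W_continuous v).comp (continuous_const.add hψc)
  have hu00 : u 0 = a := by simp [hu]
  have huπ : u Real.pi = -a := by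
    simp [hu, Prod.ext_iff]
  have hWneg : W v (-a) = 1 := by
    rw [← ha]
    apply le_antisymm
    · obtain ⟨i, j, h⟩ := exists_W v (-a)
      have h1 := le_W v a j i
      have h2 : ∀ z, lf (-a) z = - lf a z := by intro z; simp [lf]; ring
      rw [h, h2, h2]; linarith
    · obtain ⟨i, j, h⟩ := exists_W v a
      have h1 := le_W v (-a) j i
      have h2 : ∀ z, lf (-a) z = - lf a z := by intro z; simp [lf]; ring
      rw [h2, h2] at h1
      rw [h]; linarith
  have hf0 : f 0 = 2 := by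
    simp only [hf, hψ, hu00, ha, inv_one, one_smul]
    have : a + a = (2 : ℝ) • a := by rw [two_smul]
    rw [this, W_smul v a 2 (by norm_num), ha]; norm_num
  have hfπ : f Real.pi = 0 := by
    simp only [hf, hψ, huπ, hWneg, inv_one, one_smul]
    rw [add_neg_cancel]
    have := W_smul v (0 : ℝ × ℝ) 0 le_rfl
    rw [smul_zero, zero_mul] at this
    exact this
  have hmem : (1 : ℝ) ∈ Set.Icc (f Real.pi) (f 0) := by
    rw [hf0, hfπ]; norm_num
  obtain ⟨θ, hθ, hθ1⟩ := intermediate_value_Icc' Real.pi_pos.le hfc.continuousOn hmem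
  have hθ0 : θ ≠ 0 := by rintro rfl; rw [hf0] at hθ1; norm_num at hθ1
  have hθπ : θ ≠ Real.pi := by rintro rfl; rw [hfπ] at hθ1; norm_num at hθ1
  have hsin : 0 < Real.sin θ := Real.sin_pos_of_pos_of_lt_pi
    (lt_of_le_of_ne hθ.1 (Ne.symm hθ0)) (lt_of_le_of_ne hθ.2 hθπ)
  refine ⟨ψ θ, ?_, hθ1, ?_⟩
  · simp only [hψ]
    rw [W_smul v _ _ (inv_nonneg.2 (hWu θ).le), inv_mul_cancel₀ (hWu θ).ne']
  · simp only [hψ, hu, Prod.smul_fst, Prod.smul_snd, smul_eq_mul]
    have hw := inv_pos.2 (hWu θ)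
    simp only [hu] at hw
    have : a.1 * ((W v (Real.cos θ * a.1 - Real.sin θ * a.2, Real.cos θ * a.2 + Real.sin θ * a.1))⁻¹
        * (Real.cos θ * a.2 + Real.sin θ * a.1)) - a.2 *
        ((W v (Real.cos θ * a.1 - Real.sin θ * a.2, Real.cos θ * a.2 + Real.sin θ * a.1))⁻¹
        * (Real.cos θ * a.1 - Real.sin θ * a.2)) =
        (W v (Real.cos θ * a.1 - Real.sin θ * a.2, Real.cos θ * a.2 + Real.sin θ * a.1))⁻¹
        * (Real.sin θ * (a.1 ^ 2 + a.2 ^ 2)) := by ring
    rw [this]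
    positivity

end Pool.Agent.H712R3.Chord
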