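import Mathlib

set_option autoImplicit false

namespace Pool.Agent.H712R3.Chord

/-- strict counterclockwise convex position -/
def Conv {m : ℕ} (V : Fin (m + 1) → ℝ × ℝ) : Prop :=
  ∀ i j : Fin (m + 1), j ≠ i → j ≠ i + 1 →
    0 < ((V (i + 1)).1 - (V i).1) * ((V j).2 - (V i).2)
      - ((V (i + 1)).2 - (V i).2) * ((V j).1 - (V i).1)

lemma Conv.ne_succ {m : ℕ} {V : Fin (m + 1) → ℝ × ℝ} (hm : 2 ≤ m) (h : Conv V) (i : Fin (m + 1)) :
    V i ≠ V (i + 1) := by
  have hj : ∃ j : Fin (m + 1), j ≠ i ∧ j ≠ i + 1 := by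
    by_contra hcon
    push Not at hcon
    have : (Finset.univ : Finset (Fin (m + 1))) ⊆ {i, i + 1} := by
      intro j _
      by_cases hji : j = i
      · simp [hji]
      · simp [hcon j hji]
    have h2 := Finset.card_le_card this
    have h3 : ({i, i + 1} : Finset (Fin (m + 1))).card ≤ 2 := Finset.card_le_two
    simp at h2
    omega
  obtain ⟨j, h1, h2⟩ := hj
  intro heq
  have := h i j h1 h2
  rw [← heq] at this
  simp at this

lemma Conv.injective {m : ℕ} {V : Fin (m + 1) → ℝ × ℝ} (hm : 2 ≤ m) (h : Conv V) :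
    Function.Injective V := by
  intro i j hij
  by_contra hne
  by_cases h1 : j = i + 1
  · exact h.ne_succ hm i (by rw [← h1]; exact hij)
  · have := h i j (Ne.symm hne) h1
    rw [← hij] at this
    simp at this

lemma corner {m : ℕ} {V : Fin (m + 1) → ℝ × ℝ} (hm : 2 ≤ m) (h : Conv V) (s : ℝ)
    (hX : ∀ i, (V i).1 ≤ 1) (hk : ∃ k, (V k).1 = 1)
    (hS : ∀ i, (V i).1 + (V i).2 ≤ s + 1) (hj : ∃ j, (V j).1 + (V j).2 = s + 1)
    (hnot : ∀ i, V i ≠ (1, s)) :
    ∃ i, (V (i + 1)).1 - (V i).1 < 0 ∧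
      0 < ((V (i + 1)).1 - (V i).1) + ((V (i + 1)).2 - (V i).2) := by
  classical
  obtain ⟨k, hk⟩ := hk
  obtain ⟨j0, hj0⟩ := hj
  have hne : (Finset.univ.filter (fun j => (V j).1 + (V j).2 = s + 1)).Nonempty :=
    ⟨j0, by simp [hj0]⟩
  obtain ⟨j, hjm, hjmax⟩ := Finset.exists_max_image _ (fun j => (V j).1) hne
  have hj : (V j).1 + (V j).2 = s + 1 := by simpa using hjm
  have hjmax' : ∀ l, (V l).1 + (V l).2 = s + 1 → (V l).1 ≤ (V j).1 := fun l hl =>
    hjmax l (by simp [hl])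
  have hj1 : (V j).1 < 1 := by
    refine lt_of_le_of_ne (hX j) fun h1 => hnot j (Prod.ext h1 ?_)
    show (V j).2 = s
    linarith
  obtain ⟨i, hi⟩ : ∃ i : Fin (m + 1), i + 1 = j := ⟨j - 1, by simp⟩
  subst hi
  have hinj := h.injective hm
  have hii : i ≠ i + 1 := fun hh => h.ne_succ hm i (congrArg V hh)
  have hSi := hS i
  have hE : 0 < ((V (i + 1)).1 - (V i).1) + ((V (i + 1)).2 - (V i).2) := by
    rcases lt_or_eq_of_le hSi with hlt | heq
    · linarith
    · exfalso
      have hle := hjmax' i heq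
      have hlt : (V i).1 < (V (i + 1)).1 := by
        refine lt_of_le_of_ne hle fun h1 => h.ne_succ hm i (Prod.ext h1 ?_)
        linarith
      have hl : ∃ l : Fin (m + 1), l ≠ i ∧ l ≠ i + 1 := by
        refine ⟨k, ?_, ?_⟩
        · rintro rfl; linarith
        · rintro rfl; linarith
      obtain ⟨l, hl1, hl2⟩ := hl
      have hd := h i l hl1 hl2
      have hSl := hS l
      have : ((V (i + 1)).2 - (V i).2) = -((V (i + 1)).1 - (V i).1) := by linarith
      rw [this] at hd
      nlinarith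
  refine ⟨i, ?_, hE⟩
  by_contra hcon
  push Not at hcon
  have hk2 : k ≠ i + 1 := by rintro rfl; linarith
  have hk1 : k ≠ i := by rintro rfl; linarith
  have hd := h i k hk1 hk2
  have hSk := hS k
  have hc : 0 < (V k).1 - (V (i + 1)).1 := by linarith
  have e : ((V (i + 1)).1 - (V i).1) * ((V k).2 - (V i).2)
      - ((V (i + 1)).2 - (V i).2) * ((V k).1 - (V i).1) =
      ((V (i + 1)).1 - (V i).1) * ((V k).2 - (V (i + 1)).2)
      - ((V (i + 1)).2 - (V i).2) * ((V k).1 - (V (i + 1)).1) := by ring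
  rw [e] at hd
  have h5 : (V k).2 - (V (i + 1)).2 ≤ -((V k).1 - (V (i + 1)).1) := by linarith
  have h6 := mul_le_mul_of_nonneg_left h5 hcon
  have h7 := mul_pos hc hE
  nlinarith

/-- membership in the convex hull of the vertices as weights -/
lemma mem_hull {m : ℕ} {V : Fin (m + 1) → ℝ × ℝ} {p : ℝ × ℝ}
    (hp : p ∈ convexHull ℝ (Set.range V)) :
    ∃ w : Fin (m + 1) → ℝ, (∀ i, 0 ≤ w i) ∧ ∑ i, w i = 1 ∧ ∑ i, w i • V i = p := by
  rw [convexHull_range_eq_exists_affineCombination] at hp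
  obtain ⟨s, w, hw0, hw1, rfl⟩ := hp
  classical
  refine ⟨fun i => if i ∈ s then w i else 0, ?_, ?_, ?_⟩
  · intro i
    by_cases hi : i ∈ s
    · simp [hi, hw0 i hi]
    · simp [hi]
  · simp [Finset.sum_ite_mem, hw1]
  · rw [Finset.affineCombination_eq_linear_combination _ _ _ hw1]
    simp [ite_smul, Finset.sum_ite_mem]

/-- a functional bounded below by `c` on the vertices and attaining `c` at two distinct points of
the hull is equal to `c` at two distinct vertices -/
lemma two_vertices {m : ℕ} {V : Fin (m + 1) → ℝ × ℝ} (α β c : ℝ)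
    (hc : ∀ i, c ≤ α * (V i).1 + β * (V i).2) {p q : ℝ × ℝ}
    (hp : p ∈ convexHull ℝ (Set.range V)) (hq : q ∈ convexHull ℝ (Set.range V)) (hpq : p ≠ q)
    (hpc : α * p.1 + β * p.2 = c) (hqc : α * q.1 + β * q.2 = c) :
    ∃ j k, j ≠ k ∧ α * (V j).1 + β * (V j).2 = c ∧ α * (V k).1 + β * (V k).2 = c := by
  by_contra hcon
  push Not at hcon
  have key : ∀ p : ℝ × ℝ, p ∈ convexHull ℝ (Set.range V) → α * p.1 + β * p.2 = c →
      ∃ j, p = V j ∧ α * (V j).1 + β * (V j).2 = c := by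
    intro p hp hpc
    obtain ⟨w, hw0, hw1, hwp⟩ := mem_hull hp
    have h1 : ∑ i, w i * (α * (V i).1 + β * (V i).2 - c) = 0 := by
      have e1 : (∑ i, w i • V i).1 = ∑ i, w i * (V i).1 := by
        rw [Prod.fst_sum]; simp
      have e2 : (∑ i, w i • V i).2 = ∑ i, w i * (V i).2 := by
        rw [Prod.snd_sum]; simp
      have : ∑ i, w i * (α * (V i).1 + β * (V i).2 - c) =
          α * ∑ i, w i * (V i).1 + β * ∑ i, w i * (V i).2 - c * ∑ i, w i := by
        rw [Finset.mul_sum, Finset.mul_sum, Finset.mul_sum, ← Finset.sum_add_distrib,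
          ← Finset.sum_sub_distrib]
        exact Finset.sum_congr rfl fun i _ => by ring
      rw [this, ← e1, ← e2, hwp, hw1, hpc]; ring
    have h2 : ∀ i, w i * (α * (V i).1 + β * (V i).2 - c) = 0 := by
      intro i
      exact (Finset.sum_eq_zero_iff_of_nonneg (fun i _ => mul_nonneg (hw0 i)
        (sub_nonneg.2 (hc i)))).1 h1 i (Finset.mem_univ i)
    obtain ⟨j, hj⟩ : ∃ j, w j ≠ 0 := by
      by_contra hw
      push Not at hw
      rw [Finset.sum_eq_zero (fun i _ => hw i)] at hw1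
      norm_num at hw1
    have hjc : α * (V j).1 + β * (V j).2 = c := by
      rcases mul_eq_zero.1 (h2 j) with h | h
      · exact absurd h hj
      · linarith
    have hall : ∀ i, w i • V i = w i • V j := by
      intro i
      by_cases hi : w i = 0
      · simp [hi]
      · by_cases hij : i = j
        · rw [hij]
        · exfalso
          have hic : α * (V i).1 + β * (V i).2 = c := by
            rcases mul_eq_zero.1 (h2 i) with h | h
            · exact absurd h hi
            · linarith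
          exact hcon i j hij hic hjc
    refine ⟨j, ?_, hjc⟩
    rw [← hwp, Finset.sum_congr rfl (fun i _ => hall i), ← Finset.sum_smul, hw1, one_smul]
  obtain ⟨j, hj, hjc⟩ := key p hp hpc
  obtain ⟨k, hk, hkc⟩ := key q hq hqc
  by_cases hjk : j = k
  · subst hjk; exact hpq (hj.trans hk.symm)
  · exact hcon j k hjk hjc hkc

/-- an edge on a supporting line -/
lemma edge_on_line {m : ℕ} {V : Fin (m + 1) → ℝ × ℝ} (hm : 2 ≤ m) (h : Conv V) (α β c : ℝ)
    (hαβ : α ≠ 0 ∨ β ≠ 0)
    (hc : ∀ i, c ≤ α * (V i).1 + β * (V i).2) {p q : ℝ × ℝ}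
    (hp : p ∈ convexHull ℝ (Set.range V)) (hq : q ∈ convexHull ℝ (Set.range V)) (hpq : p ≠ q)
    (hpc : α * p.1 + β * p.2 = c) (hqc : α * q.1 + β * q.2 = c) :
    ∃ i, α * ((V (i + 1)).1 - (V i).1) + β * ((V (i + 1)).2 - (V i).2) = 0 := by
  obtain ⟨j, k, hjk, hj, hk⟩ := two_vertices α β c hc hp hq hpq hpc hqc
  by_cases h1 : k = j + 1
  · exact ⟨j, by rw [← h1]; linarith⟩
  by_cases h2 : j = k + 1
  · exact ⟨k, by rw [← h2]; linarith⟩
  exfalso
  have d1 := h j k (Ne.symm hjk) h1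
  have d2 := h k j hjk h2
  have c1 := hc (j + 1)
  have c2 := hc (k + 1)
  set a1 := (V (j + 1)).1 - (V j).1 with ha1
  set a2 := (V (j + 1)).2 - (V j).2 with ha2
  set b1 := (V (k + 1)).1 - (V k).1 with hb1
  set b2 := (V (k + 1)).2 - (V k).2 with hb2
  set x1 := (V k).1 - (V j).1 with hx1
  set x2 := (V k).2 - (V j).2 with hx2
  have e1 : (V j).1 - (V k).1 = -x1 := by rw [hx1]; ring
  have e2 : (V j).2 - (V k).2 = -x2 := by rw [hx2]; ring
  rw [e1, e2] at d2
  have l0 : α * x1 + β * x2 = 0 := by rw [hx1, hx2]; linarith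
  have l1 : 0 ≤ α * a1 + β * a2 := by rw [ha1, ha2]; linarith
  have l2 : 0 ≤ α * b1 + β * b2 := by rw [hb1, hb2]; linarith
  have i1 : x1 * (α * a1 + β * a2) = -β * (a1 * x2 - a2 * x1) := by linear_combination a1 * l0
  have i2 : x2 * (α * a1 + β * a2) = α * (a1 * x2 - a2 * x1) := by linear_combination a2 * l0
  have i3 : x1 * (α * b1 + β * b2) = -β * (b1 * x2 - b2 * x1) := by linear_combination b1 * l0
  have i4 : x2 * (α * b1 + β * b2) = α * (b1 * x2 - b2 * x1) := by linear_combination b2 * l0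
  have D2 : b1 * x2 - b2 * x1 < 0 := by linarith
  rcases hαβ with hα | hα
  · -- use i2, i4
    have p1 : x2 ^ 2 * ((α * a1 + β * a2) * (α * b1 + β * b2)) =
        α ^ 2 * ((a1 * x2 - a2 * x1) * (b1 * x2 - b2 * x1)) := by
      calc _ = (x2 * (α * a1 + β * a2)) * (x2 * (α * b1 + β * b2)) := by ring
        _ = _ := by rw [i2, i4]; ring
    have p2 : 0 ≤ x2 ^ 2 * ((α * a1 + β * a2) * (α * b1 + β * b2)) := by positivity
    have p3 : 0 < α ^ 2 := by positivity
    have p4 := mul_neg_of_pos_of_neg d1 D2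
    have p5 := mul_neg_of_pos_of_neg p3 p4
    linarith
  · have p1 : x1 ^ 2 * ((α * a1 + β * a2) * (α * b1 + β * b2)) =
        β ^ 2 * ((a1 * x2 - a2 * x1) * (b1 * x2 - b2 * x1)) := by
      calc _ = (x1 * (α * a1 + β * a2)) * (x1 * (α * b1 + β * b2)) := by ring
        _ = _ := by rw [i1, i3]; ring
    have p2 : 0 ≤ x1 ^ 2 * ((α * a1 + β * a2) * (α * b1 + β * b2)) := by positivity
    have p3 : 0 < β ^ 2 := by positivity
    have p4 := mul_neg_of_pos_of_neg d1 D2
    have p5 := mul_neg_of_pos_of_neg p3 p4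
    linarith

end Pool.Agent.H712R3.Chord
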