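import Mathlib
import Pool.Agent.H712R3.ChordB

set_option autoImplicit false

namespace Pool.Agent.H712R3.Chord

lemma hull_le {m : ℕ} {V : Fin (m + 1) → ℝ × ℝ} (α β c : ℝ)
    (hc : ∀ i, α * (V i).1 + β * (V i).2 ≤ c) {p : ℝ × ℝ}
    (hp : p ∈ convexHull ℝ (Set.range V)) : α * p.1 + β * p.2 ≤ c := by
  obtain ⟨w, hw0, hw1, hwp⟩ := mem_hull hp
  have e1 : (∑ i, w i • V i).1 = ∑ i, w i * (V i).1 := by
    rw [Prod.fst_sum]; simp
  have e2 : (∑ i, w i • V i).2 = ∑ i, w i * (V i).2 := by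
    rw [Prod.snd_sum]; simp
  have h1 : α * p.1 + β * p.2 = ∑ i, w i * (α * (V i).1 + β * (V i).2) := by
    rw [← hwp, e1, e2, Finset.mul_sum, Finset.mul_sum, ← Finset.sum_add_distrib]
    exact Finset.sum_congr rfl fun i _ => by ring
  have h2 : ∑ i, w i * c = c := by rw [← Finset.sum_mul, hw1, one_mul]
  rw [h1, ← h2]
  exact Finset.sum_le_sum fun i _ => mul_le_mul_of_nonneg_left (hc i) (hw0 i)

lemma seg_mem {C : Set (ℝ × ℝ)} (hC : Convex ℝ C) {p q r : ℝ × ℝ} (hp : p ∈ C) (hq : q ∈ C)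
    (t : ℝ) (ht0 : 0 ≤ t) (ht1 : t ≤ 1) (h1 : r.1 = (1 - t) * p.1 + t * q.1)
    (h2 : r.2 = (1 - t) * p.2 + t * q.2) : r ∈ C := by
  have := hC hp hq (sub_nonneg.2 ht1) ht0 (by ring)
  have e : r = (1 - t) • p + t • q := Prod.ext (by simpa using h1) (by simpa using h2)
  rw [e]; exact this

lemma horiz_mem {C : Set (ℝ × ℝ)} (hC : Convex ℝ C) {l r x y : ℝ} (hp : (l, y) ∈ C)
    (hq : (r, y) ∈ C) (h1 : l ≤ x) (h2 : x ≤ r) : (x, y) ∈ C := by
  rcases eq_or_lt_of_le (h1.trans h2) with h | h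
  · have : x = l := by linarith
    rw [this]; exact hp
  · refine seg_mem hC hp hq ((x - l) / (r - l)) (div_nonneg (by linarith) (by linarith))
      ((div_le_one (by linarith)).2 (by linarith)) ?_ ?_
    · have : r - l ≠ 0 := by linarith
      show x = (1 - (x - l) / (r - l)) * l + (x - l) / (r - l) * r
      field_simp; ring
    · show y = (1 - (x - l) / (r - l)) * y + (x - l) / (r - l) * y
      ring

lemma hexagon_mem {C : Set (ℝ × ℝ)} (hC : Convex ℝ C) {s x y : ℝ} (hs0 : 0 ≤ s) (hs1 : s ≤ 1)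
    (h1 : (s, (0 : ℝ)) ∈ C) (h2 : ((0 : ℝ), s) ∈ C) (h3 : ((1 : ℝ), (0 : ℝ)) ∈ C)
    (h4 : ((1 : ℝ), s) ∈ C) (h5 : ((0 : ℝ), (1 : ℝ)) ∈ C) (h6 : (s, (1 : ℝ)) ∈ C)
    (hx0 : 0 ≤ x) (hx1 : x ≤ 1) (hy0 : 0 ≤ y) (hy1 : y ≤ 1) (hS0 : s ≤ x + y)
    (hS1 : x + y ≤ s + 1) : (x, y) ∈ C := by
  rcases le_total y s with hys | hys
  · rcases eq_or_lt_of_le hs0 with h | h
    · have hy : y = 0 := by linarith
      subst h; subst hy
      exact horiz_mem hC h1 h3 hx0 hx1
    · have hL : (s - y, y) ∈ C := by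
        refine seg_mem hC h1 h2 (y / s) (by positivity) ((div_le_one h).2 hys) ?_ ?_
        · show s - y = (1 - y / s) * s + y / s * 0
          field_simp; ring
        · show y = (1 - y / s) * 0 + y / s * s
          field_simp; ring
      have hR : ((1 : ℝ), y) ∈ C := by
        refine seg_mem hC h3 h4 (y / s) (by positivity) ((div_le_one h).2 hys) ?_ ?_
        · show (1 : ℝ) = (1 - y / s) * 1 + y / s * 1
          ring
        · show y = (1 - y / s) * 0 + y / s * s
          field_simp; ring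
      exact horiz_mem hC hL hR (by linarith) hx1
  · rcases eq_or_lt_of_le hs1 with h | h
    · have hy : y = 1 := by linarith
      subst h; subst hy
      exact horiz_mem hC h5 h6 hx0 hx1
    · have hs : 0 < 1 - s := by linarith
      have hL : ((0 : ℝ), y) ∈ C := by
        refine seg_mem hC h2 h5 ((y - s) / (1 - s)) (div_nonneg (by linarith) hs.le)
          ((div_le_one hs).2 (by linarith)) ?_ ?_
        · show (0 : ℝ) = (1 - (y - s) / (1 - s)) * 0 + (y - s) / (1 - s) * 0
          ring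
        · show y = (1 - (y - s) / (1 - s)) * s + (y - s) / (1 - s) * 1
          field_simp; ring
      have hR : (s + 1 - y, y) ∈ C := by
        refine seg_mem hC h4 h6 ((y - s) / (1 - s)) (div_nonneg (by linarith) hs.le)
          ((div_le_one hs).2 (by linarith)) ?_ ?_
        · show s + 1 - y = (1 - (y - s) / (1 - s)) * 1 + (y - s) / (1 - s) * s
          field_simp; ring
        · show y = (1 - (y - s) / (1 - s)) * s + (y - s) / (1 - s) * 1
          field_simp; ring
      exact horiz_mem hC hL hR hx0 (by linarith)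

/-- the equality case in normalised coordinates -/
lemma normalized {m : ℕ} {V : Fin (m + 1) → ℝ × ℝ} (hm : 2 ≤ m) (h : Conv V) (s : ℝ)
    (hX0 : ∀ i, 0 ≤ (V i).1) (hX1 : ∀ i, (V i).1 ≤ 1) (hXk : ∃ k, (V k).1 = 1)
    (hV0 : (V 0).1 = 0) (hV1 : (V 1).1 = 0)
    (hY0 : ∀ i, 0 ≤ (V i).2) (hY1 : ∀ i, (V i).2 ≤ 1)
    (hS0 : ∀ i, s ≤ (V i).1 + (V i).2) (hS1 : ∀ i, (V i).1 + (V i).2 ≤ s + 1)
    (hSa : ∃ j, (V j).1 + (V j).2 = s) (hSb : ∃ j, (V j).1 + (V j).2 = s + 1)
    (h5 : ∀ i, ∃ p ∈ convexHull ℝ (Set.range V), ∃ q ∈ convexHull ℝ (Set.range V),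
      q - p = (max |(V (i + 1)).1 - (V i).1| (max |(V (i + 1)).2 - (V i).2|
        |((V (i + 1)).1 - (V i).1) + ((V (i + 1)).2 - (V i).2)|))⁻¹ • (V (i + 1) - V i)) :
    0 ≤ s ∧ s ≤ 1 ∧ (s, (0 : ℝ)) ∈ convexHull ℝ (Set.range V) ∧
    ((0 : ℝ), s) ∈ convexHull ℝ (Set.range V) ∧ ((1 : ℝ), (0 : ℝ)) ∈ convexHull ℝ (Set.range V) ∧
    ((1 : ℝ), s) ∈ convexHull ℝ (Set.range V) ∧ ((0 : ℝ), (1 : ℝ)) ∈ convexHull ℝ (Set.range V) ∧
    (s, (1 : ℝ)) ∈ convexHull ℝ (Set.range V) := by
  set Q := convexHull ℝ (Set.range V) with hQ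
  have qX0 : ∀ p ∈ Q, 0 ≤ p.1 := fun p hp => by
    have := hull_le (V := V) (-1) 0 0 (fun i => by have := hX0 i; linarith) hp
    linarith
  have qX1 : ∀ p ∈ Q, p.1 ≤ 1 := fun p hp => by
    have := hull_le (V := V) 1 0 1 (fun i => by have := hX1 i; linarith) hp
    linarith
  have qY0 : ∀ p ∈ Q, 0 ≤ p.2 := fun p hp => by
    have := hull_le (V := V) 0 (-1) 0 (fun i => by have := hY0 i; linarith) hp
    linarith
  have qY1 : ∀ p ∈ Q, p.2 ≤ 1 := fun p hp => by
    have := hull_le (V := V) 0 1 1 (fun i => by have := hY1 i; linarith) hp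
    linarith
  have qS0 : ∀ p ∈ Q, s ≤ p.1 + p.2 := fun p hp => by
    have := hull_le (V := V) (-1) (-1) (-s) (fun i => by have := hS0 i; linarith) hp
    linarith
  have qS1 : ∀ p ∈ Q, p.1 + p.2 ≤ s + 1 := fun p hp => by
    have := hull_le (V := V) 1 1 (s + 1) (fun i => by have := hS1 i; linarith) hp
    linarith
  -- step 0: the first edge is vertical
  have step0 : (s, (0 : ℝ)) ∈ Q ∧ (s, (1 : ℝ)) ∈ Q := by
    obtain ⟨p, hp, q, hq, hpq⟩ := h5 0
    have hz : (0 : Fin (m + 1)) + 1 = 1 := by simp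
    rw [hz] at hpq
    have hE1 : (V 1).1 - (V 0).1 = 0 := by rw [hV0, hV1]; ring
    have hE2 : (V 1).2 - (V 0).2 ≠ 0 := by
      intro h2
      have := h.ne_succ hm 0
      rw [hz] at this
      exact this (Prod.ext (by linarith) (by linarith))
    rw [hE1] at hpq
    simp only [abs_zero, zero_add, max_self] at hpq
    rw [max_eq_right (abs_nonneg _)] at hpq
    have c1 : q.1 - p.1 = 0 := by
      have := congrArg Prod.fst hpq
      simp only [Prod.fst_sub, Prod.smul_fst, smul_eq_mul] at this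
      rw [this, hE1, mul_zero]
    have c2 : q.2 - p.2 = |(V 1).2 - (V 0).2|⁻¹ * ((V 1).2 - (V 0).2) := by
      have := congrArg Prod.snd hpq
      simpa only [Prod.snd_sub, Prod.smul_snd, smul_eq_mul] using this
    have a1 := qS0 p hp
    have a2 := qS0 q hq
    have a3 := qS1 p hp
    have a4 := qS1 q hq
    have b1 := qY0 p hp
    have b2 := qY0 q hq
    have b3 := qY1 p hp
    have b4 := qY1 q hq
    rcases lt_or_gt_of_ne hE2 with hlt | hgt
    · rw [abs_of_neg hlt] at c2
      have : (-((V 1).2 - (V 0).2))⁻¹ * ((V 1).2 - (V 0).2) = -1 := by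
        field_simp
      rw [this] at c2
      have p2 : p.2 = 1 := by linarith
      have q2 : q.2 = 0 := by linarith
      have p1 : p.1 = s := by linarith
      have q1 : q.1 = s := by linarith
      exact ⟨by rw [← q1, ← q2]; exact hq, by rw [← p1, ← p2]; exact hp⟩
    · rw [abs_of_pos hgt, inv_mul_cancel₀ hE2] at c2
      have p2 : p.2 = 0 := by linarith
      have q2 : q.2 = 1 := by linarith
      have p1 : p.1 = s := by linarith
      have q1 : q.1 = s := by linarith
      exact ⟨by rw [← p1, ← p2]; exact hp, by rw [← q1, ← q2]; exact hq⟩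
  obtain ⟨hs0m, hs1m⟩ := step0
  have hs0 : 0 ≤ s := qX0 _ hs0m
  have hs1 : s ≤ 1 := qX1 _ hs0m
  -- a horizontal edge gives two points
  have horiz : (∃ i, (V (i + 1)).2 - (V i).2 = 0) → ((0 : ℝ), s) ∈ Q ∧ ((1 : ℝ), s) ∈ Q := by
    rintro ⟨i, hi⟩
    obtain ⟨p, hp, q, hq, hpq⟩ := h5 i
    have hE1 : (V (i + 1)).1 - (V i).1 ≠ 0 := by
      intro h2
      exact h.ne_succ hm i (Prod.ext (by linarith) (by linarith))
    rw [hi] at hpq
    simp only [abs_zero, add_zero] at hpq
    rw [max_eq_right (abs_nonneg ((V (i + 1)).1 - (V i).1)), max_self] at hpq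
    have c2 : q.2 - p.2 = 0 := by
      have := congrArg Prod.snd hpq
      simp only [Prod.snd_sub, Prod.smul_snd, smul_eq_mul] at this
      rw [this, hi, mul_zero]
    have c1 : q.1 - p.1 = |(V (i + 1)).1 - (V i).1|⁻¹ * ((V (i + 1)).1 - (V i).1) := by
      have := congrArg Prod.fst hpq
      simpa only [Prod.fst_sub, Prod.smul_fst, smul_eq_mul] using this
    have a1 := qS0 p hp
    have a2 := qS0 q hq
    have a3 := qS1 p hp
    have a4 := qS1 q hq
    have b1 := qX0 p hp
    have b2 := qX0 q hq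
    have b3 := qX1 p hp
    have b4 := qX1 q hq
    rcases lt_or_gt_of_ne hE1 with hlt | hgt
    · rw [abs_of_neg hlt] at c1
      have : (-((V (i + 1)).1 - (V i).1))⁻¹ * ((V (i + 1)).1 - (V i).1) = -1 := by
        field_simp
      rw [this] at c1
      have p2 : p.1 = 1 := by linarith
      have q2 : q.1 = 0 := by linarith
      have p1 : p.2 = s := by linarith
      have q1 : q.2 = s := by linarith
      exact ⟨by rw [← q1, ← q2]; exact hq, by rw [← p1, ← p2]; exact hp⟩
    · rw [abs_of_pos hgt, inv_mul_cancel₀ hE1] at c1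
      have p2 : p.1 = 0 := by linarith
      have q2 : q.1 = 1 := by linarith
      have p1 : p.2 = s := by linarith
      have q1 : q.2 = s := by linarith
      exact ⟨by rw [← p1, ← p2]; exact hp, by rw [← q1, ← q2]; exact hq⟩
  -- an edge with direction strictly between gives a horizontal edge
  have slanted : (∃ i, ((V (i + 1)).1 - (V i).1 < 0 ∧
      0 < ((V (i + 1)).1 - (V i).1) + ((V (i + 1)).2 - (V i).2)) ∨
      (0 < (V (i + 1)).1 - (V i).1 ∧
      ((V (i + 1)).1 - (V i).1) + ((V (i + 1)).2 - (V i).2) < 0)) →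
      ∃ i, (V (i + 1)).2 - (V i).2 = 0 := by
    rintro ⟨i, hi⟩
    obtain ⟨p, hp, q, hq, hpq⟩ := h5 i
    set E1 := (V (i + 1)).1 - (V i).1 with hE1
    set E2 := (V (i + 1)).2 - (V i).2 with hE2
    have hmax : max |E1| (max |E2| |E1 + E2|) = |E2| := by
      rcases hi with ⟨h1, h2⟩ | ⟨h1, h2⟩
      · have h3 : 0 < E2 := by linarith
        rw [abs_of_neg h1, abs_of_pos h3, abs_of_pos h2, max_eq_left (by linarith : E1 + E2 ≤ E2),
          max_eq_right (by linarith)]
      · have h3 : E2 < 0 := by linarith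
        rw [abs_of_pos h1, abs_of_neg h3, abs_of_neg h2,
          max_eq_left (by linarith : -(E1 + E2) ≤ -E2), max_eq_right (by linarith)]
    rw [hmax] at hpq
    have c1 : q.1 - p.1 = |E2|⁻¹ * E1 := by
      have := congrArg Prod.fst hpq
      simpa only [Prod.fst_sub, Prod.smul_fst, smul_eq_mul] using this
    have c2 : q.2 - p.2 = |E2|⁻¹ * E2 := by
      have := congrArg Prod.snd hpq
      simpa only [Prod.snd_sub, Prod.smul_snd, smul_eq_mul] using this
    have b1 := qY0 p hp
    have b2 := qY0 q hq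
    have b3 := qY1 p hp
    have b4 := qY1 q hq
    -- two points at heights 0 and 1 with different abscissae
    obtain ⟨x, y, hx, hy, hxy⟩ : ∃ x y : ℝ, (x, (0 : ℝ)) ∈ Q ∧ (y, (1 : ℝ)) ∈ Q ∧ x ≠ y := by
      rcases hi with ⟨h1, h2⟩ | ⟨h1, h2⟩
      · have h3 : 0 < E2 := by linarith
        rw [abs_of_pos h3] at c1 c2
        rw [inv_mul_cancel₀ h3.ne'] at c2
        have p2 : p.2 = 0 := by linarith
        have q2 : q.2 = 1 := by linarith
        refine ⟨p.1, q.1, by rw [← p2]; exact hp, by rw [← q2]; exact hq, ?_⟩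
        intro heq
        rw [heq, sub_self] at c1
        have : E2⁻¹ * E1 < 0 := mul_neg_of_pos_of_neg (inv_pos.2 h3) h1
        linarith
      · have h3 : E2 < 0 := by linarith
        rw [abs_of_neg h3] at c1 c2
        have : (-E2)⁻¹ * E2 = -1 := by
          have : E2 ≠ 0 := h3.ne
          field_simp
        rw [this] at c2
        have p2 : p.2 = 1 := by linarith
        have q2 : q.2 = 0 := by linarith
        refine ⟨q.1, p.1, by rw [← q2]; exact hq, by rw [← p2]; exact hp, ?_⟩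
        intro heq
        rw [heq, sub_self] at c1
        have : 0 < (-E2)⁻¹ * E1 := mul_pos (inv_pos.2 (by linarith)) h1
        linarith
    by_cases hxs : x = s
    · have hys : y ≠ s := fun hh => hxy (hxs.trans hh.symm)
      obtain ⟨i, hi⟩ := edge_on_line hm h 0 (-1) (-1) (Or.inr (by norm_num))
        (fun i => by have := hY1 i; linarith) hy hs1m
        (fun hh => hys (congrArg Prod.fst hh)) (by norm_num) (by norm_num)
      exact ⟨i, by linarith⟩
    · obtain ⟨i, hi⟩ := edge_on_line hm h 0 1 0 (Or.inr (by norm_num))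
        (fun i => by have := hY0 i; linarith) hx hs0m
        (fun hh => hxs (congrArg Prod.fst hh)) (by norm_num) (by norm_num)
      exact ⟨i, by linarith⟩
  have step2 : ((0 : ℝ), s) ∈ Q ∧ ((1 : ℝ), s) ∈ Q := by
    by_cases hA : ((1 : ℝ), s) ∈ Q
    · by_cases hB : ((0 : ℝ), s) ∈ Q
      · exact ⟨hB, hA⟩
      · apply horiz
        apply slanted
        -- reflect
        have hconv' : Conv (fun i => ((1 : ℝ) - (V i).1, (1 : ℝ) - (V i).2)) := by
          intro i j h1 h2
          have := h i j h1 h2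
          show 0 < (((1 : ℝ) - (V (i + 1)).1) - (1 - (V i).1)) * ((1 - (V j).2) - (1 - (V i).2))
            - ((1 - (V (i + 1)).2) - (1 - (V i).2)) * ((1 - (V j).1) - (1 - (V i).1))
          linarith
        obtain ⟨i, hi1, hi2⟩ := corner hm hconv' (1 - s)
          (fun i => by show 1 - (V i).1 ≤ 1; have := hX0 i; linarith)
          ⟨0, by show 1 - (V 0).1 = 1; rw [hV0]; ring⟩
          (fun i => by show 1 - (V i).1 + (1 - (V i).2) ≤ 1 - s + 1; have := hS0 i; linarith)
          (by obtain ⟨j, hj⟩ := hSa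
              exact ⟨j, by show 1 - (V j).1 + (1 - (V j).2) = 1 - s + 1; linarith⟩)
          (by
            intro i hi
            apply hB
            have e1 : 1 - (V i).1 = 1 := congrArg Prod.fst hi
            have e2 : 1 - (V i).2 = 1 - s := congrArg Prod.snd hi
            have : V i = (0, s) := Prod.ext (by show (V i).1 = 0; linarith)
              (by show (V i).2 = s; linarith)
            rw [← this]
            exact subset_convexHull ℝ _ ⟨i, rfl⟩)
        refine ⟨i, Or.inr ⟨?_, ?_⟩⟩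
        · have : (1 : ℝ) - (V (i + 1)).1 - (1 - (V i).1) < 0 := hi1
          linarith
        · have : 0 < ((1 : ℝ) - (V (i + 1)).1 - (1 - (V i).1)) +
            ((1 : ℝ) - (V (i + 1)).2 - (1 - (V i).2)) := hi2
          linarith
    · apply horiz
      apply slanted
      obtain ⟨i, hi1, hi2⟩ := corner hm h s hX1 hXk hS1 hSb (by
        intro i hi
        apply hA
        rw [← hi]
        exact subset_convexHull ℝ _ ⟨i, rfl⟩)
      exact ⟨i, Or.inl ⟨hi1, hi2⟩⟩
  obtain ⟨h0sm, h1sm⟩ := step2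
  have diag : ∃ i, ((V (i + 1)).1 - (V i).1) + ((V (i + 1)).2 - (V i).2) = 0 := by
    by_cases hs : s = 0
    · obtain ⟨i, hi⟩ := edge_on_line hm h (-1) (-1) (-(s + 1)) (Or.inr (by norm_num))
        (fun i => by have := hS1 i; linarith) hs1m h1sm
        (fun hh => by
          have := congrArg Prod.fst hh
          simp only at this
          linarith) (by ring) (by ring)
      exact ⟨i, by linarith⟩
    · obtain ⟨i, hi⟩ := edge_on_line hm h 1 1 s (Or.inr (by norm_num))
        (fun i => by have := hS0 i; linarith) hs0m h0sm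
        (fun hh => hs (congrArg Prod.fst hh)) (by norm_num) (by norm_num)
      exact ⟨i, by linarith⟩
  have step3 : ((1 : ℝ), (0 : ℝ)) ∈ Q ∧ ((0 : ℝ), (1 : ℝ)) ∈ Q := by
    obtain ⟨i, hi⟩ := diag
    obtain ⟨p, hp, q, hq, hpq⟩ := h5 i
    have hE1 : (V (i + 1)).1 - (V i).1 ≠ 0 := by
      intro h2
      exact h.ne_succ hm i (Prod.ext (by linarith) (by linarith))
    have hE2 : (V (i + 1)).2 - (V i).2 = -((V (i + 1)).1 - (V i).1) := by linarith
    rw [hi, hE2, abs_neg, abs_zero, max_eq_left (abs_nonneg ((V (i + 1)).1 - (V i).1)),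
      max_self] at hpq
    have c1 : q.1 - p.1 = |(V (i + 1)).1 - (V i).1|⁻¹ * ((V (i + 1)).1 - (V i).1) := by
      have := congrArg Prod.fst hpq
      simpa only [Prod.fst_sub, Prod.smul_fst, smul_eq_mul] using this
    have c2 : q.2 - p.2 = -(|(V (i + 1)).1 - (V i).1|⁻¹ * ((V (i + 1)).1 - (V i).1)) := by
      have := congrArg Prod.snd hpq
      simp only [Prod.snd_sub, Prod.smul_snd, smul_eq_mul] at this
      rw [this, hE2, mul_neg]
    have a1 := qY0 p hp
    have a2 := qY0 q hq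
    have a3 := qY1 p hp
    have a4 := qY1 q hq
    have b1 := qX0 p hp
    have b2 := qX0 q hq
    have b3 := qX1 p hp
    have b4 := qX1 q hq
    rcases lt_or_gt_of_ne hE1 with hlt | hgt
    · rw [abs_of_neg hlt] at c1 c2
      have : (-((V (i + 1)).1 - (V i).1))⁻¹ * ((V (i + 1)).1 - (V i).1) = -1 := by
        field_simp
      rw [this] at c1 c2
      have p1 : p.1 = 1 := by linarith
      have q1 : q.1 = 0 := by linarith
      have p2 : p.2 = 0 := by linarith
      have q2 : q.2 = 1 := by linarith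
      have ep : p = (1, 0) := Prod.ext p1 p2
      have eq : q = (0, 1) := Prod.ext q1 q2
      exact ⟨by rw [← ep]; exact hp, by rw [← eq]; exact hq⟩
    · rw [abs_of_pos hgt, inv_mul_cancel₀ hE1] at c1 c2
      have p1 : p.1 = 0 := by linarith
      have q1 : q.1 = 1 := by linarith
      have p2 : p.2 = 1 := by linarith
      have q2 : q.2 = 0 := by linarith
      have ep : p = (0, 1) := Prod.ext p1 p2
      have eq : q = (1, 0) := Prod.ext q1 q2
      exact ⟨by rw [← eq]; exact hq, by rw [← ep]; exact hp⟩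
  exact ⟨hs0, hs1, hs0m, h0sm, step3.1, h1sm, step3.2, hs1m⟩

end Pool.Agent.H712R3.Chord
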