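import Mathlib
import Pool.Agent.H712R3.ChordA
import Pool.Agent.H712R3.ChordC

set_option autoImplicit false

namespace Pool.Agent.H712R3.Chord

lemma max_half (p q : ℝ) : max |p| (max |q| |p + q|) = (|p| + |q| + |p + q|) / 2 := by
  rcases le_total 0 p with hp | hp <;> rcases le_total 0 q with hq | hq <;>
  rcases le_total 0 (p + q) with hs | hs
  · rw [abs_of_nonneg hp, abs_of_nonneg hq, abs_of_nonneg hs,
      max_eq_right (by linarith : q ≤ p + q), max_eq_right (by linarith : p ≤ p + q)]; ring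
  · rw [abs_of_nonneg hp, abs_of_nonneg hq, abs_of_nonpos hs]
    have h1 : p = 0 := by linarith
    have h2 : q = 0 := by linarith
    simp [h1, h2]
  · rw [abs_of_nonneg hp, abs_of_nonpos hq, abs_of_nonneg hs,
      max_eq_left (max_le (by linarith) (by linarith))]; ring
  · rw [abs_of_nonneg hp, abs_of_nonpos hq, abs_of_nonpos hs,
      max_eq_left (by linarith : -(p + q) ≤ -q), max_eq_right (by linarith)]; ring
  · rw [abs_of_nonpos hp, abs_of_nonneg hq, abs_of_nonneg hs,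
      max_eq_left (by linarith : (p + q) ≤ q), max_eq_right (by linarith)]; ring
  · rw [abs_of_nonpos hp, abs_of_nonneg hq, abs_of_nonpos hs,
      max_eq_left (max_le (by linarith) (by linarith))]; ring
  · rw [abs_of_nonpos hp, abs_of_nonpos hq, abs_of_nonneg hs]
    have h1 : p = 0 := by linarith
    have h2 : q = 0 := by linarith
    simp [h1, h2]
  · rw [abs_of_nonpos hp, abs_of_nonpos hq, abs_of_nonpos hs,
      max_eq_right (by linarith : -q ≤ -(p + q)), max_eq_right (by linarith : -p ≤ -(p + q))]; ring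

variable {m : ℕ} (v : Fin (m + 1) → ℝ × ℝ)

lemma width_one (a : ℝ × ℝ) (hW : W v a = 1) :
    ∃ μ : ℝ, (∀ i, μ ≤ lf a (v i)) ∧ (∀ i, lf a (v i) ≤ μ + 1) ∧ (∃ j, lf a (v j) = μ) ∧
      (∃ k, lf a (v k) = μ + 1) := by
  obtain ⟨i, j, h⟩ := exists_W v a
  rw [hW] at h
  refine ⟨lf a (v j), ?_, ?_, ⟨j, rfl⟩, ⟨i, by linarith⟩⟩
  · intro k
    have := le_W v a i k
    linarith
  · intro k
    have := le_W v a k j
    linarith

lemma third (hm : 2 ≤ m) (i : Fin (m + 1)) : ∃ j : Fin (m + 1), j ≠ i ∧ j ≠ i + 1 := by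
  by_contra hcon
  push Not at hcon
  have : (Finset.univ : Finset (Fin (m + 1))) ⊆ {i, i + 1} := by
    intro j _
    by_cases hji : j = i
    · simp [hji]
    · simp [hcon j hji]
  have h2 := Finset.card_le_card this
  have h3 : ({i, i + 1} : Finset (Fin (m + 1))).card ≤ 2 := Finset.card_le_two
  simp at h2
  omega

lemma W_pos (hm : 2 ≤ m) (h : Conv v) (a : ℝ × ℝ) (ha : a ≠ 0) : 0 < W v a := by
  rcases lt_or_eq_of_le (W_nonneg v a) with h0 | h0
  · exact h0
  exfalso
  have hall : ∀ i j, lf a (v i) = lf a (v j) := by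
    intro i j
    have h1 := le_W v a i j
    have h2 := le_W v a j i
    linarith
  obtain ⟨j, hj1, hj2⟩ := third hm (0 : Fin (m + 1))
  have hd := h 0 j hj1 hj2
  have e1 := hall (0 + 1) 0
  have e2 := hall j 0
  simp only [lf] at e1 e2
  set x1 := (v (0 + 1)).1 - (v 0).1 with hx1
  set x2 := (v (0 + 1)).2 - (v 0).2 with hx2
  set y1 := (v j).1 - (v 0).1 with hy1
  set y2 := (v j).2 - (v 0).2 with hy2
  have f1 : a.1 * x1 + a.2 * x2 = 0 := by rw [hx1, hx2]; linarith
  have f2 : a.1 * y1 + a.2 * y2 = 0 := by rw [hy1, hy2]; linarith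
  have g1 : a.1 * (x1 * y2 - x2 * y1) = 0 := by linear_combination y2 * f1 - x2 * f2
  have g2 : a.2 * (x1 * y2 - x2 * y1) = 0 := by linear_combination x1 * f2 - y1 * f1
  apply ha
  refine Prod.ext ?_ ?_
  · rcases mul_eq_zero.1 g1 with h | h
    · exact h
    · exact absurd h hd.ne'
  · rcases mul_eq_zero.1 g2 with h | h
    · exact h
    · exact absurd h hd.ne'

lemma lf_hull (a : ℝ × ℝ) (μ ν : ℝ) (h1 : ∀ i, μ ≤ lf a (v i)) (h2 : ∀ i, lf a (v i) ≤ ν)
    {p : ℝ × ℝ} (hp : p ∈ convexHull ℝ (Set.range v)) : μ ≤ lf a p ∧ lf a p ≤ ν := by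
  constructor
  · have := hull_le (V := v) (-a.1) (-a.2) (-μ) (fun i => by
      have := h1 i
      simp only [lf] at this
      linarith) hp
    simp only [lf]
    linarith
  · have := hull_le (V := v) (a.1) (a.2) ν (fun i => by
      have := h2 i
      simp only [lf] at this
      linarith) hp
    simpa only [lf] using this

/-- the set of lengths of chords parallel to `e` -/
def chords (P : Set (ℝ × ℝ)) (e : ℝ × ℝ) : Set ℝ :=
  {r : ℝ | ∃ x ∈ P, ∃ y ∈ P, ∃ c : ℝ, y - x = c • e ∧ r = dist x y}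

lemma chords_compact {P : Set (ℝ × ℝ)} (hP : IsCompact P) (e : ℝ × ℝ) :
    IsCompact (chords P e) := by
  have hcl : IsClosed {z : (ℝ × ℝ) × (ℝ × ℝ) | z.2 - z.1 ∈ Submodule.span ℝ {e}} := by
    have : IsClosed ((Submodule.span ℝ {e} : Submodule ℝ (ℝ × ℝ)) : Set (ℝ × ℝ)) :=
      Submodule.closed_of_finiteDimensional _
    exact this.preimage (continuous_snd.sub continuous_fst)
  have hc : IsCompact ((P ×ˢ P) ∩ {z : (ℝ × ℝ) × (ℝ × ℝ) | z.2 - z.1 ∈ Submodule.span ℝ {e}}) :=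
    (hP.prod hP).inter_right hcl
  have : chords P e = (fun z : (ℝ × ℝ) × (ℝ × ℝ) => dist z.1 z.2) ''
      ((P ×ˢ P) ∩ {z : (ℝ × ℝ) × (ℝ × ℝ) | z.2 - z.1 ∈ Submodule.span ℝ {e}}) := by
    ext r
    constructor
    · rintro ⟨x, hx, y, hy, c, hc, hr⟩
      refine ⟨(x, y), ⟨⟨hx, hy⟩, ?_⟩, hr.symm⟩
      exact Submodule.mem_span_singleton.2 ⟨c, hc.symm⟩
    · rintro ⟨⟨x, y⟩, ⟨⟨hx, hy⟩, hz⟩, hr⟩
      obtain ⟨c, hc⟩ := Submodule.mem_span_singleton.1 hz
      exact ⟨x, hx, y, hy, c, hc.symm, hr.symm⟩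
  rw [this]
  exact hc.image (by fun_prop)

/-- comparison of the ratio of an edge with a functional bound -/
lemma ratio_bound {P : Set (ℝ × ℝ)} (hP : IsCompact P) {p q : ℝ × ℝ} (hp : p ∈ P) (hq : q ∈ P)
    (hpq : p ≠ q) (N : ℝ) (hN : 0 < N)
    (hb : ∀ x ∈ P, ∀ y ∈ P, ∀ c : ℝ, y - x = c • (q - p) → |c| * N ≤ 1) :
    N ≤ dist p q / sSup (chords P (q - p)) ∧
    (dist p q / sSup (chords P (q - p)) = N →
      ∃ x ∈ P, ∃ y ∈ P, y - x = N⁻¹ • (q - p)) := by
  have hd : 0 < dist p q := dist_pos.2 hpq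
  have hcomp := chords_compact hP (q - p)
  have hmem : dist p q ∈ chords P (q - p) := ⟨p, hp, q, hq, 1, by rw [one_smul], rfl⟩
  have hle : dist p q ≤ sSup (chords P (q - p)) := le_csSup hcomp.bddAbove hmem
  have hpos : 0 < sSup (chords P (q - p)) := lt_of_lt_of_le hd hle
  obtain ⟨x, hx, y, hy, c, hc, hr⟩ := hcomp.sSup_mem ⟨_, hmem⟩
  have hr' : sSup (chords P (q - p)) = |c| * dist p q := by
    rw [hr, dist_comm, dist_eq_norm, hc, norm_smul, Real.norm_eq_abs, dist_comm p q, dist_eq_norm]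
  have hcN := hb x hx y hy c hc
  have hc0 : 0 < |c| := by
    rcases lt_or_eq_of_le (abs_nonneg c) with h | h
    · exact h
    · rw [← h, zero_mul] at hr'; linarith
  constructor
  · rw [le_div_iff₀ hpos, hr']
    calc N * (|c| * dist p q) = (|c| * N) * dist p q := by ring
      _ ≤ 1 * dist p q := mul_le_mul_of_nonneg_right hcN hd.le
      _ = dist p q := one_mul _
  · intro heq
    rw [hr', div_eq_iff (by positivity)] at heq
    have h1 : N * |c| = 1 := by
      have : dist p q * 1 = dist p q * (N * |c|) := by linarith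
      exact (mul_left_cancel₀ hd.ne' this).symm
    have h2 : N⁻¹ = |c| := inv_eq_of_mul_eq_one_right h1
    rcases le_total 0 c with h | h
    · exact ⟨x, hx, y, hy, by rw [h2, abs_of_nonneg h, hc]⟩
    · refine ⟨y, hy, x, hx, ?_⟩
      rw [h2, abs_of_nonpos h, neg_smul, ← hc, neg_sub]

end Pool.Agent.H712R3.Chord
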